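import Pool.Agent.Y29.UQ.Tree

namespace Pool.Agent.Y29.UQ

set_option linter.unusedSectionVars false
set_option linter.unusedVariables false

variable {G Y : Type} [Group G] {S : SS G Y}

instance : PartialOrder (P S) where
  le p r := ∃ s, L p s = r
  le_refl p := ⟨bt, L_bt p⟩
  le_trans := by
    rintro p q r ⟨a, rfl⟩ ⟨b, rfl⟩
    obtain ⟨g, hg⟩ := L_L p a
    exact ⟨L a (A g⁻¹ b), by rw [hg, A_A_inv]⟩
  le_antisymm := by
    rintro p q ⟨a, rfl⟩ ⟨b, hb⟩
    have h1 := congrArg rk hb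
    rw [rk_L, rk_L] at h1
    have ha : rk a = 0 := by omega
    rw [eq_bt ha, L_bt]

lemma le_def (p r : P S) : p ≤ r ↔ ∃ s, L p s = r := Iff.rfl

lemma le_L (p r : P S) : p ≤ L p r := ⟨r, rfl⟩

lemma rk_mono {p r : P S} (h : p ≤ r) : rk p ≤ rk r := by
  obtain ⟨s, rfl⟩ := h
  rw [rk_L]; omega

lemma eq_of_le_of_rk {p r : P S} (h : p ≤ r) (hr : rk r ≤ rk p) : p = r := by
  obtain ⟨s, rfl⟩ := h
  rw [rk_L] at hr
  have ha : rk s = 0 := by omega
  rw [eq_bt ha, L_bt]

lemma rk_lt {p r : P S} (h : p < r) : rk p < rk r := by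
  by_contra hc
  exact h.ne (eq_of_le_of_rk h.le (not_lt.1 hc))

lemma bt_le (p : P S) : bt ≤ p := ⟨p, bt_L p⟩

lemma L_le_iff (p a b : P S) : L p a ≤ L p b ↔ a ≤ b := by
  obtain ⟨g, hg⟩ := L_L p a
  constructor
  · rintro ⟨r, hr⟩
    have h1 : L p (L a (A g⁻¹ r)) = L p b := by rw [hg, A_A_inv, hr]
    exact ⟨A g⁻¹ r, L_inj p h1⟩
  · rintro ⟨r, rfl⟩
    exact ⟨A g r, (hg r).symm⟩

/-- Every principal filter is isomorphic to the whole order. -/
theorem upho (p : P S) : Nonempty (P S ≃o Set.Ici p) := by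
  refine ⟨⟨Equiv.ofBijective (fun r => (⟨L p r, le_L p r⟩ : Set.Ici p)) ⟨?_, ?_⟩, ?_⟩⟩
  · intro a b h
    exact L_inj p (congrArg Subtype.val h)
  · rintro ⟨q, ⟨r, rfl⟩⟩
    exact ⟨r, rfl⟩
  · intro a b
    exact L_le_iff p a b

lemma exists_lt [Nonempty Y] (s : P S) : s = bt ∨ ∃ x r, s = lt x r := by
  refine ind (C := fun s => s = bt ∨ ∃ x r, s = lt x r) (Or.inl rfl) ?_ s
  intro x r _
  exact Or.inr ⟨x, r, rfl⟩

/-- The covers of an element. -/
lemma covBy_iff [Nonempty Y] {p r : P S} : p ⋖ r ↔ ∃ x, r = L p (at' x) := by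
  constructor
  · intro h
    obtain ⟨s, rfl⟩ := h.le
    rcases exists_lt s with rfl | ⟨x, r, rfl⟩
    · exact absurd (L_bt p).symm h.ne
    · refine ⟨x, ?_⟩
      have h1 : at' x ≤ lt x r := le_L (at' x) r
      have h2 : p ≤ L p (at' x) := le_L _ _
      have h3 : L p (at' x) ≤ L p (lt x r) := (L_le_iff _ _ _).2 h1
      have h4 : p ≠ L p (at' x) := by
        intro he
        have := congrArg rk he
        rw [rk_L, rk_at] at this
        omega
      have h5 := h.eq_or_eq h2 h3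
      rcases h5 with h5 | h5
      · exact absurd h5.symm h4
      · exact h5.symm
  · rintro ⟨x, rfl⟩
    refine ⟨lt_of_le_of_ne (le_L _ _) ?_, ?_⟩
    · intro he
      have := congrArg rk he
      rw [rk_L, rk_at] at this
      omega
    · intro c h1 h2
      have h3 := rk_lt h1
      have h4 := rk_lt h2
      rw [rk_L, rk_at] at h4
      omega

lemma rk_covBy [Nonempty Y] {p r : P S} (h : p ⋖ r) : rk r = rk p + 1 := by
  obtain ⟨x, rfl⟩ := covBy_iff.1 h
  rw [rk_L, rk_at]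

lemma finite_rank [Finite Y] (n : ℕ) : {p : P S | rk p = n}.Finite := by
  have h1 : (⋃ m ∈ Set.Iic n, {l : List Y | l.length = m}).Finite :=
    (Set.finite_Iic n).biUnion fun m _ => List.finite_length_eq Y m
  have h2 := (Set.finite_Iic n).prod h1
  refine Set.Finite.of_injOn (f := fun p : P S => (p.n, p.val))
    (t := Set.Iic n ×ˢ (⋃ m ∈ Set.Iic n, {l : List Y | l.length = m})) ?_ ?_ h2
  · intro p hp
    have hp' : 2 * p.n + p.val.length = n := hp
    simp only [Set.mem_prod, Set.mem_Iic, Set.mem_iUnion, Set.mem_ofPred_eq, exists_prop,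
      exists_eq_right']
    omega
  · intro a _ b _ h
    have h3 := congrArg Prod.fst h
    have h4 := congrArg Prod.snd h
    exact P.ext h3 h4

/-! ### Joins -/

lemma A_De (g : G) : A g (De : P S) = De := P.ext rfl rfl

lemma De_eq (x : Y) : L (at' x) (at' (S.bp x)) = (De : P S) := by
  rw [L_at, lt, T_pos (by rfl)]
  exact P.ext rfl rfl

lemma at_le_De (x : Y) : at' x ≤ (De : P S) := ⟨at' (S.bp x), De_eq x⟩

lemma lt_head {x : Y} {s : P S} (h : (lt x s).n = 0) : (lt x s).val.head? = some x := by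
  by_cases h1 : s.val.head? = some (S.bp x)
  · rw [lt, T_pos h1] at h
    have : s.n + 1 = 0 := h
    omega
  · rw [lt, T_neg h1] at h ⊢
    have h2 : s.n = 0 := h
    change some (S.sm (S.phi^[s.n] (S.gx x)) (S.bp x)) = some x
    rw [h2]
    exact congrArg some (S.sm_gx x)

lemma De_le {x y : Y} (hxy : x ≠ y) {p : P S} (hx : at' x ≤ p) (hy : at' y ≤ p) :
    De ≤ p := by
  obtain ⟨r, hr⟩ := hx
  obtain ⟨s, hs⟩ := hy
  rw [L_at] at hr hs
  rcases Nat.eq_zero_or_pos p.n with h0 | h0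
  · exfalso
    have h1 := lt_head (x := x) (s := r) (by rw [hr, h0])
    have h2 := lt_head (x := y) (s := s) (by rw [hs, h0])
    rw [hr] at h1
    rw [hs, h1] at h2
    exact hxy (Option.some.inj h2)
  · refine ⟨⟨p.n - 1, p.val, p.prop⟩, ?_⟩
    rw [L_De]
    exact P.ext (by simp [sh]; omega) rfl

/-- `m` is the join of `p` and `r`. -/
def IsJoin (p r m : P S) : Prop := p ≤ m ∧ r ≤ m ∧ ∀ u, p ≤ u → r ≤ u → m ≤ u

lemma join_L {a p r m : P S} (h : IsJoin p r m) : IsJoin (L a p) (L a r) (L a m) := by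
  refine ⟨(L_le_iff _ _ _).2 h.1, (L_le_iff _ _ _).2 h.2.1, ?_⟩
  rintro u ⟨u', rfl⟩ hu
  obtain ⟨g, hg⟩ := L_L a p
  rw [← A_A_inv g u', ← hg] at hu ⊢
  rw [L_le_iff] at hu ⊢
  exact h.2.2 _ (le_L _ _) hu

lemma join_at {x y : Y} (hxy : x ≠ y) : IsJoin (at' x) (at' y) (De : P S) :=
  ⟨at_le_De x, at_le_De y, fun _ h1 h2 => De_le hxy h1 h2⟩

lemma exists_join_at [Nonempty Y] (p : P S) : ∀ x : Y, ∃ m, IsJoin p (at' x) m := by
  refine ind (C := fun p => ∀ x : Y, ∃ m, IsJoin p (at' x) m) ?_ ?_ p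
  · exact fun x => ⟨at' x, bt_le _, le_rfl, fun u _ h => h⟩
  · intro y l ih x
    by_cases hxy : x = y
    · subst hxy
      exact ⟨lt x l, le_rfl, le_L (at' x) l, fun u h _ => h⟩
    · obtain ⟨m, hm⟩ := ih (S.bp y)
      have hj := join_L (a := at' y) hm
      rw [De_eq] at hj
      refine ⟨L (at' y) m, hj.1, (at_le_De x).trans hj.2.1, fun u h1 h2 => ?_⟩
      refine hj.2.2 u h1 (De_le hxy h2 ?_)
      exact le_trans (le_L (at' y) l) h1

lemma exists_join [Nonempty Y] (p r : P S) : ∃ m, IsJoin p r m := by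
  refine ind (C := fun r => ∀ p : P S, ∃ m, IsJoin p r m) ?_ ?_ r p
  · exact fun p => ⟨p, le_rfl, bt_le p, fun u h _ => h⟩
  · intro x l ih p
    obtain ⟨s, hs⟩ := exists_join_at p x
    obtain ⟨s', rfl⟩ := hs.2.1
    obtain ⟨m, hm⟩ := ih s'
    have hj := join_L (a := at' x) hm
    refine ⟨L (at' x) m, hs.1.trans hj.1, hj.2.1, fun u h1 h2 => ?_⟩
    exact hj.2.2 u (hs.2.2 u h1 (le_trans (le_L (at' x) l) h2)) h2

lemma IsJoin.isLUB {p r m : P S} (h : IsJoin p r m) : IsLUB {p, r} m := by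
  obtain ⟨h1, h2, h3⟩ := h
  refine ⟨?_, ?_⟩
  · rintro z (rfl | hz)
    · exact h1
    · rw [Set.mem_singleton_iff] at hz; rw [hz]; exact h2
  · intro u hu
    exact h3 u (hu (by simp)) (hu (by simp))

theorem exists_isLUB [Nonempty Y] (p r : P S) : ∃ m, IsLUB {p, r} m := by
  obtain ⟨m, h⟩ := exists_join p r
  exact ⟨m, h.isLUB⟩

theorem exists_isGLB [Nonempty Y] (p r : P S) : ∃ m, IsGLB {p, r} m := by
  classical
  -- a common lower bound of maximal rank
  have hb : ∀ n, (∃ m, m ≤ p ∧ m ≤ r ∧ rk m = n) → n ≤ rk p := by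
    rintro n ⟨m, h1, _, rfl⟩; exact rk_mono h1
  set N := Nat.findGreatest (fun n => ∃ m, m ≤ p ∧ m ≤ r ∧ rk m = n) (rk p) with hN
  have hNs : ∃ m, m ≤ p ∧ m ≤ r ∧ rk m = N := by
    have := Nat.findGreatest_spec (P := fun n => ∃ m, m ≤ p ∧ m ≤ r ∧ rk m = n)
      (Nat.zero_le (rk p)) ⟨bt, bt_le _, bt_le _, rfl⟩
    exact this
  obtain ⟨m, hm1, hm2, hm3⟩ := hNs
  refine ⟨m, ?_, ?_⟩
  · rintro z (rfl | hz)
    · exact hm1
    · rw [Set.mem_singleton_iff] at hz; rw [hz]; exact hm2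
  · intro u hu
    have hu1 : u ≤ p := hu (by simp)
    have hu2 : u ≤ r := hu (by simp)
    obtain ⟨j, hj1, hj2, hj3⟩ := exists_join m u
    have hjp := hj3 p hm1 hu1
    have hjq := hj3 r hm2 hu2
    have hjN : rk j ≤ N := by
      rw [hN]
      exact Nat.le_findGreatest (rk_mono hjp) ⟨j, hjp, hjq, rfl⟩
    have : m = j := eq_of_le_of_rk hj1 (by omega)
    rw [this]; exact hj2

/-- The join of the covers of `p`. -/
noncomputable def D (p : P S) : P S := L p De

lemma rk_D (p : P S) : rk (D p) = rk p + 2 := rk_L _ _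

lemma D_L (p r : P S) : D (L p r) = L p (D r) := by
  obtain ⟨g, hg⟩ := L_L p r
  unfold D
  rw [hg, A_De]

lemma D_lt (x : Y) (r : P S) : D (lt x r) = lt x (D r) := D_L (at' x) r

lemma D_join (p : P S) {x y : Y} (hxy : x ≠ y) :
    IsJoin (L p (at' x)) (L p (at' y)) (D p) := join_L (join_at hxy)

lemma lt_sh (x : Y) (s : P S) : lt x (sh 1 s) = sh 1 (A (S.phi (S.gx x)) (T x s)) := by
  rw [lt, T_sh, A_sh]; rfl

lemma De_le_D [Nonempty Y] (p : P S) : De ≤ D p := by
  refine ind (C := fun p => De ≤ D p) ⟨bt, L_bt De⟩ ?_ p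
  rintro x s ⟨r, hr⟩
  rw [D_lt, ← hr, L_De, lt_sh]
  exact ⟨_, L_De _⟩

/-! ### Isomorphisms -/

section iso

variable {G' : Type} [Group G'] {S' : SS G' Y}

lemma rk_strictMono [Nonempty Y] (s : P S) : ∀ β : P S → P S', StrictMono β →
    rk (β bt) + rk s ≤ rk (β s) := by
  refine ind (C := fun s => ∀ β : P S → P S', StrictMono β → rk (β bt) + rk s ≤ rk (β s)) ?_ ?_ s
  · intro β _
    simp
  · intro x l ih β hβ
    have hmono : StrictMono (fun r => β (L (at' x) r)) := by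
      intro a b hab
      apply hβ
      refine lt_of_le_of_ne ((L_le_iff _ _ _).2 hab.le) ?_
      intro he
      exact hab.ne (L_inj _ he)
    have h1 := ih _ hmono
    simp only [L_bt] at h1
    rw [L_at] at h1
    have h2 : (bt : P S) < at' x := lt_of_le_of_ne (bt_le _) (by
      intro he
      have := congrArg rk he
      simp at this)
    have h3 := rk_lt (hβ h2)
    rw [rk_lt']
    omega

lemma rk_iso [Nonempty Y] (α : P S ≃o P S') (p : P S) : rk (α p) = rk p := by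
  have h1 := rk_strictMono p α α.strictMono
  have h2 := rk_strictMono (α p) α.symm α.symm.strictMono
  rw [α.symm_apply_apply] at h2
  omega

lemma exists_at [Nonempty Y] {p : P S} (h : rk p = 1) : ∃ x, p = at' x := by
  rcases exists_lt p with rfl | ⟨x, r, rfl⟩
  · simp at h
  · rw [rk_lt'] at h
    refine ⟨x, ?_⟩
    rw [eq_bt (show rk r = 0 by omega), ← L_at, L_bt]

lemma at_inj {x y : Y} (h : (at' x : P S) = at' y) : x = y := by
  have := congrArg P.val h
  simpa [at'] using this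

/-- Isomorphisms respect the join of the covers. -/
lemma iso_D [Nontrivial Y] (α : P S ≃o P S') (p : P S) : α (D p) = D (α p) := by
  obtain ⟨x0, x1, h01⟩ := exists_pair_ne Y
  have hc : ∀ x : Y, ∃ y, α (L p (at' x)) = L (α p) (at' y) := by
    intro x
    have h1 : p ⋖ L p (at' x) := covBy_iff.2 ⟨x, rfl⟩
    have h2 : α p ⋖ α (L p (at' x)) := (apply_covBy_apply_iff α).2 h1
    exact covBy_iff.1 h2
  obtain ⟨y, hy⟩ := hc x0
  obtain ⟨z, hz⟩ := hc x1
  have hyz : y ≠ z := by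
    rintro rfl
    have h1 := α.injective (hy.trans hz.symm)
    exact h01 (at_inj (L_inj _ h1))
  have hj := D_join p h01
  have h1 : L (α p) (at' y) ≤ α (D p) := by rw [← hy]; exact α.monotone hj.1
  have h2 : L (α p) (at' z) ≤ α (D p) := by rw [← hz]; exact α.monotone hj.2.1
  exact (eq_of_le_of_rk ((D_join (α p) hyz).2.2 _ h1 h2) (by
    rw [rk_iso, rk_D, rk_D, rk_iso])).symm

end iso

/-- In a multiplicable lattice, elements above atoms with the same `D` have the same `D`. -/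
theorem not_mul [Nontrivial Y] (mul : P S → P S → P S)
    (hass : ∀ a b c, mul (mul a b) c = mul a (mul b c))
    (hcan : ∀ a b c, mul a b = mul a c → b = c)
    (hle : ∀ a b, a ≤ b ↔ ∃ c, mul a c = b) {x x' : Y} {p : P S}
    (h1 : D (at' x : P S) = D (at' x')) (h2 : at' x ≤ p)
    (h4 : ∀ p', at' x' ≤ p' → D p' ≠ D p) : False := by
  classical
  have haut : ∀ s : P S, ∃ α : P S ≃o P S, ∀ r, L s (α r) = mul s r := by
    intro s
    have h1 : ∀ r, ∃ r', L s r' = mul s r := fun r => (hle s (mul s r)).2 ⟨r, rfl⟩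
    choose a ha using h1
    have hiff : ∀ r r', a r ≤ a r' ↔ r ≤ r' := by
      intro r r'
      rw [← L_le_iff s, ha, ha, hle, hle]
      constructor
      · rintro ⟨c, hc⟩
        exact ⟨c, hcan s _ _ (by rw [← hass, hc])⟩
      · rintro ⟨c, hc⟩
        exact ⟨c, by rw [hass, hc]⟩
    have hinj : Function.Injective a := by
      intro r r' h
      exact le_antisymm ((hiff _ _).1 h.le) ((hiff _ _).1 h.ge)
    have hsurj : Function.Surjective a := by
      intro y
      obtain ⟨c, hc⟩ := (hle s (L s y)).1 (le_L s y)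
      refine ⟨c, L_inj s ?_⟩
      rw [ha, hc]
    exact ⟨⟨Equiv.ofBijective a ⟨hinj, hsurj⟩, fun {r r'} => hiff r r'⟩, ha⟩
  have hDe : ∀ s, mul s De = D s := by
    intro s
    obtain ⟨α, hα⟩ := haut s
    have h1 : α De = De := by
      have h2 := iso_D α bt
      have h3 : α bt = bt := eq_bt (by rw [rk_iso, rk_bt])
      rw [h3] at h2
      exact h2
    rw [← hα, h1]; rfl
  obtain ⟨c, rfl⟩ := (hle _ _).1 h2
  obtain ⟨r, hr⟩ := (hle De (D c)).1 (De_le_D c)
  refine h4 (mul (at' x') c) ((hle _ _).2 ⟨c, rfl⟩) ?_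
  rw [← hDe, ← hDe, hass, hass, hDe c, ← hr, ← hass, ← hass, hDe, hDe, h1]

end Pool.Agent.Y29.UQ
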