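import Mathlib

/-!
Self-similar data: a group `G` acting on letters `Y`, sections, an endomorphism `phi` and a base
letter `bp x` for every letter `x`.  The words over `Y` modulo the relations `x (bp x) = De` form
an upper homogeneous lattice.
-/

namespace Pool.Agent.Y29.UQ

set_option linter.unusedSectionVars false
set_option linter.unusedVariables false

/-- Self-similar data. -/
structure SS (G Y : Type) [Group G] where
  /-- action on letters -/
  sm : G → Y → Y
  /-- sections -/
  sec : G → Y → G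
  /-- effect of moving over `De` -/
  phi : G → G
  /-- base letter -/
  bp : Y → Y
  /-- transversal -/
  gx : Y → G
  sm_one : ∀ x, sm 1 x = x
  sm_mul : ∀ g h x, sm (g * h) x = sm g (sm h x)
  sec_one : ∀ x, sec 1 x = 1
  sec_mul : ∀ g h x, sec (g * h) x = sec g (sm h x) * sec h x
  phi_one : phi 1 = 1
  phi_mul : ∀ g h, phi (g * h) = phi g * phi h
  sm_gx : ∀ x, sm (gx x) (bp x) = x
  sec_gx : ∀ x, sec (gx x) (bp x) = 1
  gx_bp : ∀ x, gx (bp x) = 1
  bp_sm : ∀ g x, bp (sm g x) = bp x
  sm_sec : ∀ g x, sm (sec g x) (bp x) = bp x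
  sec_sec : ∀ g x, sm g (bp x) = bp x → sec (sec g (bp x)) (bp x) = phi g
  sm_phi : ∀ g x, sm g (bp x) = bp x → sm (phi g) (bp x) = bp x
  sec_phi : ∀ g x, sm g (bp x) = bp x → sec (phi g) (bp x) = phi (sec g (bp x))

variable {G Y : Type} [Group G] (S : SS G Y)

namespace SS

lemma sm_inj {g : G} {x y : Y} (h : S.sm g x = S.sm g y) : x = y := by
  have h1 := congrArg (S.sm g⁻¹) h
  rwa [← S.sm_mul, ← S.sm_mul, inv_mul_cancel, S.sm_one, S.sm_one] at h1

lemma bp_bp (x : Y) : S.bp (S.bp x) = S.bp x := by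
  have h := S.bp_sm (S.gx x) (S.bp x)
  rw [S.sm_gx] at h
  exact h.symm

lemma phi_it_one (n : ℕ) : S.phi^[n] 1 = 1 := by
  induction n with
  | zero => rfl
  | succ n ih => rw [Function.iterate_succ_apply, S.phi_one, ih]

lemma phi_it_mul (n : ℕ) (g h : G) : S.phi^[n] (g * h) = S.phi^[n] g * S.phi^[n] h := by
  induction n generalizing g h with
  | zero => rfl
  | succ n ih => rw [Function.iterate_succ_apply, S.phi_mul, ih]; rfl

lemma sm_it (n : ℕ) : ∀ (g : G) (x : Y), S.sm g (S.bp x) = S.bp x →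
    S.sm (S.phi^[n] g) (S.bp x) = S.bp x := by
  induction n with
  | zero => intro g x h; exact h
  | succ n ih =>
    intro g x h
    rw [Function.iterate_succ_apply]
    exact ih _ _ (S.sm_phi _ _ h)

lemma sec_it (n : ℕ) : ∀ (g : G) (x : Y), S.sm g (S.bp x) = S.bp x →
    S.sec (S.phi^[n] g) (S.bp x) = S.phi^[n] (S.sec g (S.bp x)) := by
  induction n with
  | zero => intro g x h; rfl
  | succ n ih =>
    intro g x h
    rw [Function.iterate_succ_apply, Function.iterate_succ_apply, ih _ _ (S.sm_phi _ _ h),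
      S.sec_phi _ _ h]

end SS

/-- Reduced words. -/
def RD : List Y → Prop
  | [] => True
  | x :: l => l.head? ≠ some (S.bp x) ∧ RD l

/-- Action on words. -/
def ta : G → List Y → List Y
  | _, [] => []
  | g, x :: l => S.sm g x :: ta (S.sec g x) l

lemma ta_one (l : List Y) : ta S 1 l = l := by
  induction l with
  | nil => rfl
  | cons x l ih => rw [ta, S.sec_one, S.sm_one, ih]

lemma ta_mul (l : List Y) : ∀ g h : G, ta S g (ta S h l) = ta S (g * h) l := by
  induction l with
  | nil => intro g h; rfl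
  | cons x l ih => intro g h; rw [ta, ta, ta, ih, S.sec_mul, S.sm_mul]

lemma length_ta (l : List Y) : ∀ g : G, (ta S g l).length = l.length := by
  induction l with
  | nil => intro g; rfl
  | cons x l ih => intro g; simp [ta, ih]

lemma head_ta (g : G) (l : List Y) : (ta S g l).head? = l.head?.map (S.sm g) := by
  cases l <;> simp [ta]

lemma RD_ta (l : List Y) : ∀ g : G, RD S l → RD S (ta S g l) := by
  induction l with
  | nil => intro g h; exact h
  | cons x l ih =>
    intro g h
    refine ⟨?_, ih _ h.2⟩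
    rw [head_ta, S.bp_sm]
    intro he
    rw [Option.map_eq_some_iff] at he
    obtain ⟨y, hy, hy2⟩ := he
    have h3 : y = S.bp x := S.sm_inj (hy2.trans (S.sm_sec g x).symm)
    exact h.1 (by rw [hy, h3])

/-- The lattice: powers of `De` followed by reduced words. -/
@[ext] structure P where
  /-- the exponent of `De` -/
  n : ℕ
  /-- the word -/
  val : List Y
  /-- the word is reduced -/
  prop : RD S val

variable {S}

/-- Group action. -/
def A (g : G) (s : P S) : P S := ⟨s.n, ta S (S.phi^[s.n] g) s.val, RD_ta S _ _ s.prop⟩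

/-- Multiplication by powers of `De`. -/
def sh (j : ℕ) (s : P S) : P S := ⟨s.n + j, s.val, s.prop⟩

lemma RD_tail {l : List Y} (h : RD S l) : RD S l.tail := by
  cases l with
  | nil => exact h
  | cons x l => exact h.2

open Classical in
/-- Multiplication by the base letter of `x`. -/
noncomputable def T (x : Y) (s : P S) : P S :=
  if h : s.val.head? = some (S.bp x) then ⟨s.n + 1, s.val.tail, RD_tail s.prop⟩
  else ⟨s.n, S.bp x :: s.val, ⟨by rw [S.bp_bp]; exact h, s.prop⟩⟩

lemma T_pos {x : Y} {s : P S} (h : s.val.head? = some (S.bp x)) :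
    T x s = ⟨s.n + 1, s.val.tail, RD_tail s.prop⟩ := by
  rw [T, dif_pos h]

lemma T_neg {x : Y} {s : P S} (h : s.val.head? ≠ some (S.bp x)) :
    T x s = ⟨s.n, S.bp x :: s.val, ⟨by rw [S.bp_bp]; exact h, s.prop⟩⟩ := by
  rw [T, dif_neg h]

lemma T_congr {x y : Y} (h : S.bp x = S.bp y) (s : P S) : T x s = T y s := by
  by_cases h1 : s.val.head? = some (S.bp x)
  · rw [T_pos h1, T_pos (by rw [← h]; exact h1)]
  · rw [T_neg h1, T_neg (by rw [← h]; exact h1)]
    ext1
    · rfl
    · simp [h]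

lemma A_one (s : P S) : A 1 s = s := by
  refine P.ext rfl ?_
  change ta S (S.phi^[s.n] 1) s.val = s.val
  rw [S.phi_it_one, ta_one]

lemma A_mul (g h : G) (s : P S) : A g (A h s) = A (g * h) s := by
  refine P.ext rfl ?_
  change ta S (S.phi^[s.n] g) (ta S (S.phi^[s.n] h) s.val) = ta S (S.phi^[s.n] (g * h)) s.val
  rw [ta_mul, S.phi_it_mul]

lemma A_inv_A (g : G) (s : P S) : A g⁻¹ (A g s) = s := by rw [A_mul, inv_mul_cancel, A_one]
lemma A_A_inv (g : G) (s : P S) : A g (A g⁻¹ s) = s := by rw [A_mul, mul_inv_cancel, A_one]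
lemma A_injective (g : G) : Function.Injective (A (S := S) g) := fun a b h => by
  rw [← A_inv_A g a, h, A_inv_A]

lemma sh_zero (s : P S) : sh 0 s = s := rfl
lemma sh_sh (i j : ℕ) (s : P S) : sh i (sh j s) = sh (i + j) s := by
  refine P.ext ?_ rfl
  simp [sh]; omega

lemma sh_injective (j : ℕ) : Function.Injective (sh (S := S) j) := fun a b h => by
  have h1 := congrArg P.n h
  have h2 := congrArg P.val h
  simp only [sh] at h1 h2
  exact P.ext (by omega) h2

lemma A_sh (g : G) (j : ℕ) (s : P S) : A g (sh j s) = sh j (A (S.phi^[j] g) s) := by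
  refine P.ext rfl ?_
  change ta S (S.phi^[s.n + j] g) s.val = ta S (S.phi^[s.n] (S.phi^[j] g)) s.val
  rw [Function.iterate_add_apply]

lemma T_sh (x : Y) (j : ℕ) (s : P S) : T x (sh j s) = sh j (T x s) := by
  by_cases h : s.val.head? = some (S.bp x)
  · rw [T_pos h, T_pos (s := sh j s) h]
    refine P.ext ?_ rfl
    simp [sh]; omega
  · rw [T_neg h, T_neg (s := sh j s) h]
    rfl

lemma T_T (x : Y) (s : P S) : T x (T x s) = sh 1 s := by
  by_cases h : s.val.head? = some (S.bp x)
  · obtain ⟨n, l, hl⟩ := s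
    cases l with
    | nil => simp at h
    | cons y l =>
      have hy : y = S.bp x := by simpa using h
      subst hy
      rw [T_pos h]
      have h2 : l.head? ≠ some (S.bp x) := by
        have := hl.1
        rwa [S.bp_bp] at this
      change T x (⟨n + 1, l, hl.2⟩ : P S) = _
      rw [T_neg h2]
      rfl
  · rw [T_neg h, T_pos (by rfl)]
    rfl

lemma A_T {x : Y} {h : G} (hx : S.sm h (S.bp x) = S.bp x) (s : P S) :
    A h (T x s) = T x (A (S.sec h (S.bp x)) s) := by
  have hb : S.sm (S.sec h (S.bp x)) (S.bp x) = S.bp x := by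
    have := S.sm_sec h (S.bp x)
    rwa [S.bp_bp] at this
  have hb2 := S.sm_it s.n _ _ hb
  obtain ⟨n, l, hl⟩ := s
  by_cases h1 : l.head? = some (S.bp x)
  · cases l with
    | nil => simp at h1
    | cons y l =>
      have hy : y = S.bp x := by simpa using h1
      subst hy
      rw [T_pos h1]
      rw [T_pos (s := A (S.sec h (S.bp x)) ⟨n, S.bp x :: l, hl⟩) (by
        change some (S.sm (S.phi^[n] (S.sec h (S.bp x))) (S.bp x)) = _
        rw [hb2])]
      refine P.ext rfl ?_
      change ta S (S.phi^[n + 1] h) l =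
        ta S (S.sec (S.phi^[n] (S.sec h (S.bp x))) (S.bp x)) l
      rw [S.sec_it n _ _ hb, S.sec_sec _ _ hx, Function.iterate_succ_apply]
  · rw [T_neg h1]
    rw [T_neg (s := A (S.sec h (S.bp x)) ⟨n, l, hl⟩) (by
      change (ta S (S.phi^[n] (S.sec h (S.bp x))) l).head? ≠ _
      rw [head_ta]
      intro he
      rw [Option.map_eq_some_iff] at he
      obtain ⟨y, hy, hy2⟩ := he
      exact h1 (by rw [hy, S.sm_inj (hy2.trans hb2.symm)]))]
    refine P.ext rfl ?_
    change S.sm (S.phi^[n] h) (S.bp x) :: ta S (S.sec (S.phi^[n] h) (S.bp x)) l =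
      S.bp x :: ta S (S.phi^[n] (S.sec h (S.bp x))) l
    rw [S.sm_it n _ _ hx, S.sec_it n _ _ hx]

/-- Left multiplication by a letter. -/
noncomputable def lt (x : Y) (s : P S) : P S := A (S.gx x) (T x s)

/-- Left multiplication by a word. -/
noncomputable def Lw : List Y → P S → P S
  | [], s => s
  | x :: l, s => lt x (Lw l s)

/-- Left multiplication. -/
noncomputable def L (p s : P S) : P S := sh p.n (Lw p.val s)

lemma lt_bp (x : Y) (s : P S) : lt (S.bp x) s = T x s := by
  rw [lt, S.gx_bp, A_one, T_congr (S.bp_bp x)]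

lemma A_lt (g : G) (x : Y) (s : P S) : A g (lt x s) = lt (S.sm g x) (A (S.sec g x) s) := by
  have h0 : S.sm ((S.gx (S.sm g x))⁻¹ * (g * S.gx x)) (S.bp x) = S.bp x := by
    apply S.sm_inj (g := S.gx (S.sm g x))
    rw [← S.sm_mul, mul_inv_cancel_left, S.sm_mul, S.sm_gx]
    have := S.sm_gx (S.sm g x)
    rw [S.bp_sm] at this
    exact this.symm
  have hs : S.sec ((S.gx (S.sm g x))⁻¹ * (g * S.gx x)) (S.bp x) = S.sec g x := by
    have h1 : S.sec (S.gx (S.sm g x) * ((S.gx (S.sm g x))⁻¹ * (g * S.gx x))) (S.bp x) =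
        S.sec (g * S.gx x) (S.bp x) := by
      rw [mul_inv_cancel_left]
    rw [S.sec_mul (S.gx (S.sm g x)) _ _, S.sec_mul g (S.gx x) _, h0, S.sec_gx, S.sm_gx,
      mul_one] at h1
    have h2 := S.sec_gx (S.sm g x)
    rw [S.bp_sm] at h2
    rwa [h2, one_mul] at h1
  have h2 : g * S.gx x = S.gx (S.sm g x) * ((S.gx (S.sm g x))⁻¹ * (g * S.gx x)) := by
    rw [mul_inv_cancel_left]
  rw [lt, A_mul, h2, ← A_mul, A_T h0, hs, lt, T_congr (S.bp_sm g x)]

lemma A_Lw : ∀ (l : List Y) (g : G), ∃ g' : G, ∀ s : P S, A g (Lw l s) = Lw (ta S g l) (A g' s)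
  | [], g => ⟨g, fun s => rfl⟩
  | x :: l, g => by
      obtain ⟨g', h⟩ := A_Lw l (S.sec g x)
      exact ⟨g', fun s => by rw [Lw, A_lt, h]; rfl⟩

lemma A_L (g : G) (p : P S) : ∃ g' : G, ∀ s : P S, A g (L p s) = L (A g p) (A g' s) := by
  obtain ⟨g', h⟩ := A_Lw (S := S) p.val (S.phi^[p.n] g)
  exact ⟨g', fun s => by rw [L, A_sh, h]; rfl⟩

lemma L_sh (j : ℕ) (p s : P S) : L (sh j p) s = sh j (L p s) := by
  rw [L, L, sh_sh, add_comm]; rfl

lemma T_L (x : Y) (p s : P S) : T x (L p s) = L (T x p) s := by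
  obtain ⟨n, l, hl⟩ := p
  by_cases h : l.head? = some (S.bp x)
  · cases l with
    | nil => simp at h
    | cons y l =>
      have hy : y = S.bp x := by simpa using h
      subst hy
      rw [T_pos (s := ⟨n, S.bp x :: l, hl⟩) h, L, L, T_sh]
      change sh n (T x (lt (S.bp x) (Lw l s))) = sh (n + 1) (Lw l s)
      rw [lt_bp, T_T, sh_sh]
  · rw [T_neg (s := ⟨n, l, hl⟩) h, L, L, T_sh]
    change sh n (T x (Lw l s)) = sh n (lt (S.bp x) (Lw l s))
    rw [lt_bp]

lemma lt_L (x : Y) (r : P S) : ∃ g : G, ∀ s, lt x (L r s) = L (lt x r) (A g s) := by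
  obtain ⟨g, h⟩ := A_L (S.gx x) (T x r)
  exact ⟨g, fun s => by rw [lt, T_L, h]; rfl⟩

lemma Lw_L (l : List Y) (r : P S) : ∃ g : G, ∀ s, Lw l (L r s) = L (Lw l r) (A g s) := by
  induction l with
  | nil => exact ⟨1, fun s => by rw [A_one]; rfl⟩
  | cons x l ih =>
    obtain ⟨g, hg⟩ := ih
    obtain ⟨g', hg'⟩ := lt_L x (Lw l r)
    exact ⟨g' * g, fun s => by rw [Lw, hg, hg', A_mul]; rfl⟩

lemma L_L (p r : P S) : ∃ g : G, ∀ s, L p (L r s) = L (L p r) (A g s) := by
  obtain ⟨g, hg⟩ := Lw_L p.val r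
  refine ⟨g, fun s => ?_⟩
  rw [L, hg, ← L_sh]; rfl

/-- The rank. -/
def rk (s : P S) : ℕ := 2 * s.n + s.val.length

lemma rk_A (g : G) (s : P S) : rk (A g s) = rk s := by
  simp [rk, A, length_ta]

lemma rk_sh (j : ℕ) (s : P S) : rk (sh j s) = rk s + 2 * j := by
  simp [rk, sh]; ring

lemma rk_T (x : Y) (s : P S) : rk (T x s) = rk s + 1 := by
  obtain ⟨n, l, hl⟩ := s
  by_cases h : l.head? = some (S.bp x)
  · rw [T_pos h]
    cases l with
    | nil => simp at h
    | cons y l => simp [rk]; omega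
  · rw [T_neg h]
    simp [rk]; omega

lemma rk_lt' (x : Y) (s : P S) : rk (lt x s) = rk s + 1 := by rw [lt, rk_A, rk_T]

lemma rk_Lw (l : List Y) (s : P S) : rk (Lw l s) = rk s + l.length := by
  induction l with
  | nil => rfl
  | cons x l ih => rw [Lw, rk_lt', ih]; simp; omega

lemma rk_L (p r : P S) : rk (L p r) = rk p + rk r := by
  rw [L, rk_sh, rk_Lw]
  unfold rk
  omega

lemma T_injective (x : Y) : Function.Injective (T (S := S) x) := fun a b h => by
  have h1 := congrArg (T x) h
  rw [T_T, T_T] at h1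
  exact sh_injective 1 h1

lemma lt_injective (x : Y) : Function.Injective (lt (S := S) x) := fun a b h =>
  T_injective x (A_injective _ h)

lemma Lw_injective (l : List Y) : Function.Injective (Lw (S := S) l) := by
  induction l with
  | nil => exact fun a b h => h
  | cons x l ih => exact fun a b h => ih (lt_injective x h)

/-- The least element. -/
def bt : P S := ⟨0, [], trivial⟩

/-- The atoms. -/
def at' (x : Y) : P S := ⟨0, [x], ⟨by simp, trivial⟩⟩

/-- The join of any two atoms. -/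
def De : P S := ⟨1, [], trivial⟩

@[simp] lemma rk_bt : rk (bt : P S) = 0 := rfl
@[simp] lemma rk_at (x : Y) : rk (at' x : P S) = 1 := rfl
@[simp] lemma rk_De : rk (De : P S) = 2 := rfl

lemma lt_cons {x : Y} {l : List Y} (h : RD S (x :: l)) :
    lt x (⟨0, l, h.2⟩ : P S) = ⟨0, x :: l, h⟩ := by
  rw [lt, T_neg h.1]
  refine P.ext rfl ?_
  change S.sm (S.gx x) (S.bp x) :: ta S (S.sec (S.gx x) (S.bp x)) l = x :: l
  rw [S.sm_gx, S.sec_gx, ta_one]

lemma Lw_bt : ∀ (l : List Y) (h : RD S l), Lw l (bt : P S) = ⟨0, l, h⟩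
  | [], _ => rfl
  | x :: l, h => by rw [Lw, Lw_bt l h.2, lt_cons h]

lemma L_bt (p : P S) : L p bt = p := by
  rw [L, Lw_bt p.val p.prop]
  exact P.ext (by simp [sh]) rfl
lemma bt_L (p : P S) : L bt p = p := rfl
lemma L_inj (p : P S) : Function.Injective (L p) := fun a b h =>
  Lw_injective p.val (sh_injective p.n h)
lemma L_at (x : Y) (s : P S) : L (at' x) s = lt x s := rfl
lemma L_De (s : P S) : L De s = sh 1 s := rfl

lemma eq_bt {s : P S} (h : rk s = 0) : s = bt := by
  unfold rk at h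
  exact P.ext (by have : s.n = 0 := by omega
                  exact this) (List.eq_nil_of_length_eq_zero (by omega))

/-- Every element is the least one or begins with a letter. -/
lemma ind [Nonempty Y] {C : P S → Prop} (h0 : C bt) (h1 : ∀ x s, C s → C (lt x s)) (s : P S) :
    C s := by
  induction hn : rk s using Nat.strong_induction_on generalizing s with
  | _ n ih =>
    subst hn
    obtain ⟨n, l, hl⟩ := s
    cases n with
    | zero =>
      cases l with
      | nil => exact h0
      | cons x l =>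
        rw [← lt_cons hl]
        exact h1 x _ (ih _ (by simp [rk]) _ rfl)
    | succ n =>
      obtain ⟨y⟩ := ‹Nonempty Y›
      have h2 : (⟨n + 1, l, hl⟩ : P S) = lt (S.bp y) (T y ⟨n, l, hl⟩) := by
        rw [lt_bp, T_T]; rfl
      rw [h2]
      apply h1
      refine ih _ ?_ _ rfl
      rw [rk_T]
      simp [rk]; omega

end Pool.Agent.Y29.UQ
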